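import Pool.Agent.Q98.FAL.Cc

/-!
# Fully augmented links: a cap in the Fourier basis
-/

set_option autoImplicit false

namespace Pool.Agent.Q98.FAL

open Finset
open Pool.Agent.Q99.FAL
open Pool.Agent.H550R3.Jones (br brf)
open Pool.Agent.W715.VC (rt rt_ne rt_zpow rt_zpow_N)
open Pool.Agent.W709.QAT (Piece run kap)
open Pool.Agent.Q191.TW (cs cs_add cs_zero cs_ne cs_neg cs_norm cs_period cs_period' rt_cs)

variable {N : ℕ}

theorem sum_cap (hN : 0 < N) (p a b : ℤ) :
    ∑ q : Fin N × Fin N, Pool.Agent.W709.QAT.cap N (rt N) q *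
      (ph N p a (q.1 : ℕ) * ph N (p + 1) b (q.2 : ℕ)) =
      cs N (-(((N : ℝ) - 1) ^ 2 * (p + 1 / 2)) + 2 * a) *
        (if (N : ℤ) ∣ b - a - 1 then (N : ℂ) else 0) := by
  rw [Fintype.sum_prod_type_right]
  have h1 : ∀ c : Fin N, ∑ x : Fin N, Pool.Agent.W709.QAT.cap N (rt N) (x, c) *
      (ph N p a (x : ℕ) * ph N (p + 1) b (c : ℕ)) =
      cs N (-(((N : ℝ) - 1) ^ 2 * (p + 1 / 2)) + 2 * a) *
        cs N (-(2 * ((c : ℕ) : ℝ) * ((b - a - 1 : ℤ) : ℝ))) := by
    intro c
    have hc := c.2
    rw [Finset.sum_eq_single (⟨N - 1 - c, by omega⟩ : Fin N)]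
    · unfold Pool.Agent.W709.QAT.cap
      simp only
      rw [if_pos (by omega), kap_cs hN _ hc]
      unfold ph
      rw [← cs_neg, ← cs_add, ← cs_add, ← cs_add]
      have hx : ((N - 1 - (c : ℕ) : ℕ) : ℝ) = (N : ℝ) - 1 - (c : ℕ) := by
        rw [Nat.cast_sub (by omega), Nat.cast_sub (by omega)]
        push_cast
        ring
      refine cs_period' hN (-((c : ℕ) : ℤ) - a) ?_
      simp only [Int.cast_natCast, hx]
      push_cast
      ring
    · intro x _ hx
      unfold Pool.Agent.W709.QAT.cap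
      simp only
      rw [if_neg, zero_mul]
      intro h
      apply hx
      apply Fin.ext
      simp only
      omega
    · intro h
      exact absurd (mem_univ _) h
  simp only [h1]
  rw [← mul_sum, Fin.sum_univ_eq_sum_range
    (fun c : ℕ => cs N (-(2 * (c : ℝ) * ((b - a - 1 : ℤ) : ℝ)))) N, sum_cs hN]

theorem UU_cap (L R : List ℤ) (x y : List (Fin N)) (hL : L.length = x.length)
    (a b : ℤ) (q q' : Fin N) :
    UU N (L ++ a :: b :: R) (x ++ q :: q' :: y) =
      nu N (L.sum + R.sum + (a + b)) * (uu N 0 L x * uu N (L.length + 2) R y) *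
        (ph N L.length a (q : ℕ) * ph N (L.length + 1) b (q' : ℕ)) := by
  unfold UU
  rw [uu_app L _ 0 x _ hL]
  have h1 : (L ++ a :: b :: R).sum = L.sum + R.sum + (a + b) := by
    simp only [List.sum_append, List.sum_cons]
    ring
  rw [h1]
  simp only [uu, zero_add]
  have e : (L.length : ℤ) + 1 + 1 = L.length + 2 := by ring
  rw [e]
  ring

theorem task_CAP : S_CAP := by
  intro N hN n p
  refine ⟨nu N (1 + n) * cs N (-(((N : ℝ) - 1) ^ 2 * ((p : ℤ) + 1 / 2))), ?_, ?_⟩
  · rw [norm_mul, nu_norm, cs_norm, one_mul]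
  intro L R a b hL hR l hl
  obtain ⟨x, y, rfl, hx⟩ : ∃ x y : List (Fin N), l = x ++ y ∧ x.length = p :=
    ⟨l.take p, l.drop p, (List.take_append_drop p l).symm, by
      rw [List.length_take]; omega⟩
  have hLx : L.length = x.length := by rw [hL, hx]
  have hact : run N (rt N) [Piece.cap p] (UU N (L ++ a :: b :: R)) (x ++ y) =
      ∑ q : Fin N × Fin N, Pool.Agent.W709.QAT.cap N (rt N) q *
        UU N (L ++ a :: b :: R) (x ++ q.1 :: q.2 :: y) := by
    show (Piece.cap p).act N (rt N) _ _ = _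
    unfold Piece.act
    simp only [List.drop_left' hx, List.take_left' hx]
  rw [hact]
  have hsum : ∀ q : Fin N × Fin N, Pool.Agent.W709.QAT.cap N (rt N) q *
      UU N (L ++ a :: b :: R) (x ++ q.1 :: q.2 :: y) =
      nu N (L.sum + R.sum + (a + b)) * (uu N 0 L x * uu N (L.length + 2) R y) *
      (Pool.Agent.W709.QAT.cap N (rt N) q *
        (ph N L.length a (q.1 : ℕ) * ph N (L.length + 1) b (q.2 : ℕ))) := by
    intro q
    rw [UU_cap L R x y hLx a b q.1 q.2]
    ring
  simp only [hsum]
  rw [← mul_sum, sum_cap hN]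
  split_ifs with h
  · obtain ⟨k, hk⟩ := h
    have hk2 : (b - a - 1) / N = k := by
      rw [hk]
      exact Int.mul_ediv_cancel_left _ (by exact_mod_cast hN.ne')
    rw [hk2]
    unfold UU
    rw [uu_app L _ 0 x _ hLx, zero_add, uu_shift' hN]
    have h1 : (L ++ R.map (· - 1)).sum = L.sum + R.sum - n := by
      have h2 : (R.map (· - 1)).sum = R.sum - R.length := by
        clear hR hact hsum
        induction R with
        | nil => simp
        | cons c R ih =>
          simp only [List.map_cons, List.sum_cons, ih, List.length_cons]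
          push_cast
          ring
      rw [List.sum_append, h2, hR]
      ring
    rw [h1]
    have h3 : nu N (L.sum + R.sum + (a + b)) * cs N (2 * a) =
        nu N (1 + n) * ep N k * nu N (L.sum + R.sum - n) := by
      have h4 : L.sum + R.sum + (a + b) = (1 + n) + N * k + (L.sum + R.sum - n) + 2 * a := by
        linarith
      rw [h4, nu_add, nu_add, nu_add, nu_N hN, nu_two, mul_assoc (nu N (1 + n) * ep N k *
        nu N (L.sum + R.sum - n)), ← cs_add]
      have : -2 * (a : ℝ) + 2 * a = 0 := by ring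
      rw [this, cs_zero, mul_one]
    rw [cs_add, hL]
    linear_combination (uu N 0 L x * uu N (p + 2) R y * cs N (-(((N : ℝ) - 1) ^ 2 *
      (((p : ℕ) : ℤ) + 1 / 2))) * N) * h3
  · simp

end Pool.Agent.Q98.FAL
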