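import Pool.Agent.Q98.FAL.Cc

/-!
# Fully augmented links: a cup in the Fourier basis
-/

set_option autoImplicit false

namespace Pool.Agent.Q98.FAL

open Finset
open Pool.Agent.Q99.FAL
open Pool.Agent.H550R3.Jones (br brf)
open Pool.Agent.W715.VC (rt rt_ne rt_zpow rt_zpow_N)
open Pool.Agent.W709.QAT (Piece run kap)
open Pool.Agent.Q191.TW (cs cs_add cs_zero cs_ne cs_neg cs_norm cs_period cs_period' rt_cs)

variable {N : ℕ}

theorem run_one {v : ℂ} (P : Piece) (f : List (Fin N) → ℂ) : run N v [P] f = P.act N v f := rfl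

theorem sum_cup (hN : 0 < N) (p : ℤ) (a b : Fin N) :
    ∑ t ∈ range N, nu N (2 * t) * (ph N p t (a : ℕ) * ph N (p + 1) t (b : ℕ)) =
      if (a : ℕ) + b = N - 1 then
        (N : ℂ) * (cs N (-(((N : ℝ) - 1) ^ 2 * (p + 3 / 2))) * kap N (rt N) a) else 0 := by
  have ha := a.2
  have hb := b.2
  have h1 : ∀ t ∈ range N, nu N (2 * t) * (ph N p t (a : ℕ) * ph N (p + 1) t (b : ℕ)) =
      cs N (-(((a : ℕ) : ℝ) ^ 2 / 2 + ((N : ℝ) - 1) * p * a + ((b : ℕ) : ℝ) ^ 2 / 2 +
        ((N : ℝ) - 1) * (p + 1) * b)) * cs N (-(2 * (t : ℝ) * ((1 + a + b : ℤ) : ℝ))) := by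
    intro t _
    rw [nu_two]
    unfold ph
    rw [← cs_add, ← cs_add, ← cs_add]
    congr 1
    push_cast
    ring
  rw [sum_congr rfl h1, ← mul_sum, sum_cs hN]
  by_cases hab : (a : ℕ) + b = N - 1
  · rw [if_pos hab, if_pos ⟨1, by omega⟩, kap_cs hN _ ha, ← cs_add, mul_comm]
    congr 2
    have hb' : ((b : ℕ) : ℝ) = (N : ℝ) - 1 - (a : ℕ) := by
      have h2 : (a : ℕ) + b + 1 = N := by omega
      have h3 : ((a : ℕ) : ℝ) + (b : ℕ) + 1 = N := by exact_mod_cast h2
      linarith
    rw [hb']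
    ring
  · rw [if_neg hab, if_neg, mul_zero]
    rintro ⟨k, hk⟩
    have hk1 : 0 < k := by
      by_contra hcon
      have : (N : ℤ) * k ≤ 0 := mul_nonpos_of_nonneg_of_nonpos (by positivity) (by omega)
      omega
    have hk2 : k < 2 := by
      by_contra hcon
      have : (N : ℤ) * 2 ≤ N * k := mul_le_mul_of_nonneg_left (by omega) (by positivity)
      omega
    have hk3 : k = 1 := by omega
    subst hk3
    omega

theorem UU_cup (hN : 0 < N) (L R : List ℤ) (x r : List (Fin N)) (hL : L.length = x.length)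
    (t : ℤ) (a b : Fin N) :
    UU N (L ++ t :: t :: R.map (· + 1)) (x ++ a :: b :: r) =
      nu N (L.sum + R.sum + R.length) * (nu N (2 * t) * (ph N L.length t (a : ℕ) *
        ph N (L.length + 1) t (b : ℕ))) * (uu N 0 L x * uu N L.length R r) := by
  unfold UU
  rw [uu_app L _ 0 x _ hL]
  have h1 : (L ++ t :: t :: R.map (· + 1)).sum = L.sum + R.sum + R.length + 2 * t := by
    have h2 : (R.map (· + 1)).sum = R.sum + R.length := by
      clear hL
      induction R with
      | nil => simp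
      | cons c R ih =>
        simp only [List.map_cons, List.sum_cons, ih, List.length_cons]
        push_cast
        ring
    simp only [List.sum_append, List.sum_cons, h2]
    ring
  rw [h1, nu_add]
  simp only [uu, zero_add]
  have h3 := uu_shift hN R L.length r
  have e : (L.length : ℤ) + 1 + 1 = L.length + 2 := by ring
  rw [e, h3]
  ring

theorem task_CUP : S_CUP := by
  intro N hN n p hp
  have hN0 : (N : ℂ) ≠ 0 := by exact_mod_cast hN.ne'
  refine ⟨nu N (-((n : ℤ) - p)) * cs N (((N : ℝ) - 1) ^ 2 * ((p : ℤ) + 3 / 2)), ?_, ?_⟩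
  · rw [norm_mul, nu_norm, cs_norm, one_mul]
  intro s hs l hl
  rw [run_one]
  obtain ⟨L, R, rfl, hL⟩ : ∃ L R : List ℤ, s = L ++ R ∧ L.length = p :=
    ⟨s.take p, s.drop p, (List.take_append_drop p s).symm, by
      rw [List.length_take]; omega⟩
  obtain ⟨x, y, rfl, hx⟩ : ∃ x y : List (Fin N), l = x ++ y ∧ x.length = p :=
    ⟨l.take p, l.drop p, (List.take_append_drop p l).symm, by
      rw [List.length_take]; omega⟩
  have hR : R.length = n - p := by
    rw [List.length_append] at hs; omega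
  have hy : y.length = (n - p) + 1 + 1 := by
    rw [List.length_append] at hl; omega
  obtain ⟨a, y', rfl⟩ := List.exists_cons_of_length_eq_add_one hy
  have hy' : y'.length = (n - p) + 1 := by
    simpa using hy
  obtain ⟨b, r, rfl⟩ := List.exists_cons_of_length_eq_add_one hy'
  have hr : r.length = n - p := by simpa using hy'
  have hLx : L.length = x.length := by rw [hL, hx]
  rw [List.take_left' hL, List.drop_left' hL]
  have hact : (Piece.cup p).act N (rt N) (UU N (L ++ R)) (x ++ a :: b :: r) =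
      Pool.Agent.W709.QAT.cup N (rt N) (a, b) * UU N (L ++ R) (x ++ r) := by
    unfold Piece.act
    simp only [List.drop_left' hx, List.take_left' hx]
  rw [hact]
  have hsum : ∀ t ∈ range N, UU N (L ++ (t : ℤ) :: (t : ℤ) :: R.map (· + 1)) (x ++ a :: b :: r) =
      nu N (L.sum + R.sum + R.length) * (uu N 0 L x * uu N L.length R r) *
        (nu N (2 * t) * (ph N L.length t (a : ℕ) * ph N (L.length + 1) t (b : ℕ))) := by
    intro t _
    rw [UU_cup hN L R x r hLx t a b]
    ring
  rw [sum_congr rfl hsum, ← mul_sum, sum_cup hN]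
  unfold Pool.Agent.W709.QAT.cup UU
  rw [uu_app L R 0 x r hLx, zero_add]
  simp only
  by_cases hab : (a : ℕ) + b = N - 1
  · rw [if_pos hab, if_pos hab]
    have h1 : nu N (L.sum + R.sum + R.length) * nu N (-((n : ℤ) - p)) = nu N (L ++ R).sum := by
      rw [← nu_add]
      congr 1
      rw [List.sum_append, hR]
      push_cast [hp]
      ring
    have h2 : cs N (((N : ℝ) - 1) ^ 2 * ((p : ℤ) + 3 / 2)) *
        cs N (-(((N : ℝ) - 1) ^ 2 * ((L.length : ℤ) + 3 / 2))) = 1 := by
      rw [← cs_add, hL]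
      have : ((N : ℝ) - 1) ^ 2 * ((p : ℤ) + 3 / 2) + -(((N : ℝ) - 1) ^ 2 * (((p : ℕ) : ℤ) + 3 / 2)) =
        0 := by push_cast; ring
      rw [this, cs_zero]
    rw [← h1, div_mul_eq_mul_div, eq_div_iff hN0]
    linear_combination (-(kap N (rt N) a * nu N (L.sum + R.sum + R.length) * nu N (-((n : ℤ) - p)) *
      uu N 0 L x * uu N L.length R r * N)) * h2
  · rw [if_neg hab, if_neg hab]
    ring

end Pool.Agent.Q98.FAL
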