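import Pool.Agent.Q99.FAL.Stm2

/-!
# Fully augmented links: cups and caps in the Fourier basis
-/

set_option autoImplicit false

namespace Pool.Agent.Q98.FAL

open Finset
open Pool.Agent.Q99.FAL
open Pool.Agent.H550R3.Jones (br brf)
open Pool.Agent.W715.VC (rt rt_ne rt_zpow rt_zpow_N)
open Pool.Agent.W709.QAT (Piece run kap)
open Pool.Agent.Q191.TW (cs cs_add cs_zero cs_ne cs_neg cs_norm cs_period cs_period' rt_cs)
open Pool.Agent.Q99.FW (cs_neg_one)

variable {N : ℕ}

theorem kap_cs (hN : 0 < N) : ∀ a : ℕ, a < N →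
    kap N (rt N) a = cs N ((2 * (N : ℝ) - 2) * a - (a : ℝ) ^ 2) := by
  intro a
  induction a with
  | zero =>
    intro _
    have h := Pool.Agent.Q191.TB.kap_ne' (N := N) (a := 0) hN
    unfold kap at h ⊢
    have h2 : brf (rt N) (N - 1) ≠ 0 := by
      intro h0
      apply h
      simp [h0]
    have h1 : brf (rt N) 0 = 1 := by simp [brf]
    rw [h1]
    simp only [Nat.sub_zero, one_mul, div_self h2]
    simp [cs_zero]
  | succ a ih =>
    intro ha
    have h := Pool.Agent.Q191.TB.kap_succ (N := N) (a := a) ha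
    have hbr : br (rt N) ((N : ℤ) - 1 - a) = br (rt N) ((a : ℤ) + 1) := by
      rw [← Pool.Agent.Q191.TB.brN hN ((a : ℤ) + 1)]
      congr 1
      ring
    have hne : br (rt N) ((a : ℤ) + 1) ≠ 0 := by
      have := Pool.Agent.W715.VC.br_ne (N := N) (k := (a : ℤ) + 1) (by omega) (by omega)
      exact this
    rw [hbr, ih (by omega)] at h
    have h2 : kap N (rt N) (a + 1) = -(rt N ^ ((N : ℤ) - 3 - 2 * a) *
        cs N ((2 * (N : ℝ) - 2) * a - (a : ℝ) ^ 2)) := by
      apply mul_right_cancel₀ hne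
      rw [h]
      ring
    rw [h2, rt_cs, ← cs_add]
    have h3 : (-1 : ℂ) = cs N (N : ℝ) := by
      have := cs_neg_one hN 1
      rw [pow_one] at this
      rw [this]
      congr 1
      simp
    rw [neg_eq_neg_one_mul, h3, ← cs_add]
    congr 1
    push_cast
    ring

theorem ph_shift (hN : 0 < N) (k s x : ℤ) : ph N (k + 2) (s + 1) x = ph N k s x := by
  unfold ph
  refine cs_period' hN (-x) ?_
  push_cast
  ring

theorem uu_shift (hN : 0 < N) : ∀ (R : List ℤ) (k : ℤ) (y : List (Fin N)),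
    uu N (k + 2) (R.map (· + 1)) y = uu N k R y
  | [], _, [] => rfl
  | [], _, _ :: _ => rfl
  | _ :: _, _, [] => rfl
  | s :: R, k, x :: y => by
    have h := uu_shift hN R (k + 1) y
    have e : k + 1 + 2 = k + 2 + 1 := by ring
    rw [e] at h
    simp only [List.map_cons, uu, h, ph_shift hN]

theorem uu_shift' (hN : 0 < N) (R : List ℤ) (k : ℤ) (y : List (Fin N)) :
    uu N k (R.map (· - 1)) y = uu N (k + 2) R y := by
  rw [← uu_shift hN (R.map (· - 1)) k y, List.map_map]
  congr 1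
  conv_rhs => rw [← List.map_id R]
  refine List.map_congr_left fun x _ => ?_
  simp

theorem uu_app : ∀ (L R : List ℤ) (k : ℤ) (x y : List (Fin N)), L.length = x.length →
    uu N k (L ++ R) (x ++ y) = uu N k L x * uu N (k + L.length) R y
  | [], R, k, [], y, _ => by simp [uu]
  | [], _, _, _ :: _, _, h => by simp at h
  | _ :: _, _, _, [], _, h => by simp at h
  | s :: L, R, k, a :: x, y, h => by
    have h' : L.length = x.length := by simpa using h
    have ih := uu_app L R (k + 1) x y h'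
    simp only [List.cons_append, uu, ih, List.length_cons]
    have e : k + 1 + (L.length : ℤ) = k + ((L.length + 1 : ℕ) : ℤ) := by push_cast; ring
    rw [e, mul_assoc]

theorem nu_ne (s : ℤ) : nu N s ≠ 0 := by
  unfold nu
  exact zpow_ne_zero _ (neg_ne_zero.2 (inv_ne_zero (rt_ne N)))

theorem nu_add (a b : ℤ) : nu N (a + b) = nu N a * nu N b := by
  unfold nu
  exact zpow_add₀ (neg_ne_zero.2 (inv_ne_zero (rt_ne N))) a b

theorem nu_norm (s : ℤ) : ‖nu N s‖ = 1 := by
  unfold nu
  rw [norm_zpow, norm_neg, norm_inv]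
  have h := Pool.Agent.W715.VC.norm_rt_zpow N 1
  rw [zpow_one] at h
  rw [h]
  simp

theorem nu_two (t : ℤ) : nu N (2 * t) = cs N (-2 * t) := by
  unfold nu
  rw [zpow_mul]
  have h : (-(rt N)⁻¹ : ℂ) ^ (2 : ℤ) = rt N ^ (-2 : ℤ) := by
    rw [zpow_neg, ← inv_zpow]
    norm_cast
    ring
  rw [h, ← zpow_mul, rt_cs]
  congr 1
  push_cast
  ring

theorem nu_N (hN : 0 < N) (k : ℤ) : nu N (N * k) = ep N k := by
  unfold nu ep
  rw [zpow_mul]
  congr 1
  rw [zpow_natCast, neg_pow, inv_pow, Pool.Agent.W715.VC.rt_pow_N hN, pow_succ]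
  norm_num

/-- sums of roots of unity -/
theorem sum_cs (hN : 0 < N) (c : ℤ) : ∑ t ∈ range N, cs N (-(2 * (t : ℝ) * c)) =
    if (N : ℤ) ∣ c then (N : ℂ) else 0 := by
  have hN0 : (N : ℝ) ≠ 0 := by exact_mod_cast hN.ne'
  have h1 : ∀ t : ℕ, cs N (-(2 * (t : ℝ) * c)) = (rt N ^ (-2 * c)) ^ t := by
    intro t
    rw [← zpow_natCast, ← zpow_mul, rt_cs]
    congr 1
    push_cast
    ring
  simp only [h1]
  split_ifs with h
  · obtain ⟨k, rfl⟩ := h
    have h2 : rt N ^ (-2 * ((N : ℤ) * k)) = 1 := by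
      have e : -2 * ((N : ℤ) * k) = (N : ℤ) * (2 * (-k)) := by ring
      rw [e, zpow_mul, rt_zpow_N hN, zpow_mul]
      norm_num
    rw [h2]
    simp
  · have hne : rt N ^ (-2 * c) ≠ 1 := by
      intro h2
      apply h
      rw [rt_cs] at h2
      unfold cs at h2
      rw [Complex.exp_eq_one_iff] at h2
      obtain ⟨n, hn⟩ := h2
      have h3 : ((Real.pi * ((-2 * c : ℤ) : ℝ) / N : ℝ) : ℂ) = ((n * (2 * Real.pi) : ℝ) : ℂ) := by
        apply mul_right_cancel₀ Complex.I_ne_zero
        rw [hn]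
        push_cast
        ring
      have h4 : (Real.pi * ((-2 * c : ℤ) : ℝ) / N : ℝ) = n * (2 * Real.pi) := by
        exact_mod_cast h3
      rw [div_eq_iff hN0] at h4
      have h5 : Real.pi * (((-2 * c : ℤ) : ℝ) - n * 2 * N) = 0 := by linarith
      rcases mul_eq_zero.1 h5 with h6 | h6
      · exact absurd h6 Real.pi_ne_zero
      · have h7 : (-2 * c : ℤ) = n * 2 * N := by
          have : ((-2 * c : ℤ) : ℝ) = ((n * 2 * N : ℤ) : ℝ) := by push_cast at h6 ⊢; linarith
          exact_mod_cast this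
        exact ⟨-n, by linarith⟩
    have hpow : (rt N ^ (-2 * c)) ^ N = 1 := by
      rw [← zpow_natCast, ← zpow_mul]
      have e : -2 * c * (N : ℤ) = (N : ℤ) * (2 * (-c)) := by ring
      rw [e, zpow_mul, rt_zpow_N hN, zpow_mul]
      norm_num
    rw [geom_sum_eq hne, hpow]
    simp

end Pool.Agent.Q98.FAL
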